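import Pool.Agent.MBase

/-!
# An abstract complex Laplace lower bound
-/

namespace Pool.Agent.Helper9.TB

open MeasureTheory Filter Topology Set

/-- a nonvanishing solution of `G' = G D` is an exponential -/
lemma sol_exp {G D : ℝ → ℂ} (hG : ∀ x, HasDerivAt G (G x * D x) x) (hD : Continuous D)
    (a x : ℝ) : G x = G a * Complex.exp (∫ t in a..x, D t) := by
  have h1 : ∀ x, HasDerivAt (fun x => ∫ t in a..x, D t) (D x) x := fun x =>
    intervalIntegral.integral_hasDerivAt_right (hD.intervalIntegrable _ _)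
      hD.stronglyMeasurable.stronglyMeasurableAtFilter hD.continuousAt
  have h2 : ∀ x, HasDerivAt (fun x => G x * Complex.exp (-∫ t in a..x, D t)) 0 x := by
    intro x
    have h3 := (hG x).mul ((h1 x).neg.cexp)
    refine h3.congr_deriv ?_
    ring
  have h4 : ∀ x y, G x * Complex.exp (-∫ t in a..x, D t) = G y * Complex.exp (-∫ t in a..y, D t) :=
    fun x y => is_const_of_deriv_eq_zero (fun x => (h2 x).differentiableAt)
      (fun x => (h2 x).deriv) x y
  have h5 := h4 x a
  rw [intervalIntegral.integral_same, neg_zero, Complex.exp_zero, mul_one] at h5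
  rw [← h5, mul_assoc, ← Complex.exp_add]
  simp

/-- a second order estimate of an integral -/
lemma int_second {P : ℝ → ℂ} {x₀ : ℝ} {P' : ℂ} (hPc : Continuous P) (h0 : P x₀ = 0)
    (hP : HasDerivAt P P' x₀) (x : ℝ) :
    Tendsto (fun N : ℕ => (N : ℂ) * ∫ t in x₀..(x₀ + x / Real.sqrt N), P t) atTop
      (𝓝 (P' * x ^ 2 / 2)) := by
  rw [Metric.tendsto_atTop]
  intro ε hε
  -- little o
  have h1 := hP.isLittleO
  set η := ε / (2 * (x ^ 2 + 1)) with hη
  have hη0 : 0 < η := by positivity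
  have h2 := (Asymptotics.isLittleO_iff.mp h1) hη0
  rw [Metric.eventually_nhds_iff] at h2
  obtain ⟨d, hd, h3⟩ := h2
  -- N large
  have h4 : Tendsto (fun N : ℕ => |x| / Real.sqrt N) atTop (𝓝 0) := by
    apply Tendsto.div_atTop tendsto_const_nhds
    exact Real.tendsto_sqrt_atTop.comp tendsto_natCast_atTop_atTop
  have h5 : ∀ᶠ N : ℕ in atTop, |x| / Real.sqrt N < d := h4.eventually (gt_mem_nhds hd)
  obtain ⟨N0, hN0⟩ := (h5.and (eventually_ge_atTop 1)).exists_forall_of_atTop
  refine ⟨N0, fun N hN => ?_⟩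
  obtain ⟨h6, h7⟩ := hN0 N hN
  have hNR : (0 : ℝ) < N := by exact_mod_cast h7
  have hs : 0 < Real.sqrt N := Real.sqrt_pos.mpr hNR
  set s := x / Real.sqrt N with hsdef
  have hs2 : (N : ℝ) * s ^ 2 = x ^ 2 := by
    rw [hsdef, div_pow, Real.sq_sqrt hNR.le]; field_simp
  have habs : |s| < d := by rw [hsdef, abs_div, abs_of_pos hs]; exact h6
  -- integral of the linear part
  have h8 : ∫ t in x₀..(x₀ + s), P' * ((t - x₀ : ℝ) : ℂ) = P' * ((s ^ 2 / 2 : ℝ) : ℂ) := by
    rw [intervalIntegral.integral_const_mul]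
    congr 1
    rw [intervalIntegral.integral_ofReal]
    congr 1
    rw [intervalIntegral.integral_comp_sub_right (fun t => t) x₀]
    rw [sub_self, add_sub_cancel_left, integral_id]
    ring
  have hc1 : Continuous fun t : ℝ => P' * ((t - x₀ : ℝ) : ℂ) := by fun_prop
  have h9 : ‖(∫ t in x₀..(x₀ + s), P t) - P' * ((s ^ 2 / 2 : ℝ) : ℂ)‖ ≤ η * |s| * |s| := by
    rw [← h8, ← intervalIntegral.integral_sub (hPc.intervalIntegrable _ _)
      (hc1.intervalIntegrable _ _)]
    have := intervalIntegral.norm_integral_le_of_norm_le_const (a := x₀) (b := x₀ + s)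
      (f := fun t => P t - P' * ((t - x₀ : ℝ) : ℂ)) (C := η * |s|) ?_
    · rwa [add_sub_cancel_left] at this
    · intro t ht
      have ht1 : |t - x₀| ≤ |s| := by
        rcases le_total 0 s with h | h
        · rw [uIoc_of_le (by linarith only [h])] at ht
          rw [abs_of_nonneg (by linarith only [ht.1, ht]), abs_of_nonneg h]
          linarith only [ht.2, ht]
        · rw [uIoc_of_ge (by linarith only [h])] at ht
          rw [abs_of_nonpos (by linarith only [ht.2, ht]), abs_of_nonpos h]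
          linarith only [ht.1, ht]
      have h10 := h3 (y := t) (by rw [Real.dist_eq]; linarith)
      rw [h0, sub_zero, Real.norm_eq_abs] at h10
      have e : (t - x₀) • P' = P' * ((t - x₀ : ℝ) : ℂ) := by
        rw [Complex.real_smul, mul_comm]
      rw [e] at h10
      exact h10.trans (by gcongr)
  have e2 : (N : ℂ) * (∫ t in x₀..(x₀ + s), P t) - P' * x ^ 2 / 2 =
      (N : ℂ) * ((∫ t in x₀..(x₀ + s), P t) - P' * ((s ^ 2 / 2 : ℝ) : ℂ)) := by
    have : ((N : ℝ) * s ^ 2 : ℝ) = (x ^ 2 : ℝ) := hs2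
    have h11 : (N : ℂ) * (s : ℂ) ^ 2 = (x : ℂ) ^ 2 := by exact_mod_cast this
    push_cast
    linear_combination (P' / 2) * h11
  rw [dist_eq_norm, e2, norm_mul, Complex.norm_natCast]
  calc (N : ℝ) * ‖(∫ t in x₀..(x₀ + s), P t) - P' * ((s ^ 2 / 2 : ℝ) : ℂ)‖
      ≤ N * (η * |s| * |s|) := by gcongr
    _ = η * x ^ 2 := by rw [← hs2, ← sq_abs s]; ring
    _ ≤ η * (x ^ 2 + 1) := by gcongr; linarith only []
    _ = ε / 2 := by rw [hη]; field_simp
    _ < ε := by linarith only [hε]

/-- abstract complex Laplace lower bound -/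
theorem laplace_abs {G D : ℕ → ℝ → ℂ} {P : ℝ → ℂ} {P' : ℂ} {x₀ c m C C₁ : ℝ}
    (h0 : 0 < x₀) (hc : x₀ < c) (hm : 0 < m)
    (hG : ∀ᶠ N : ℕ in atTop, ∀ x, HasDerivAt (G N) (G N x * D N x) x)
    (hG0 : ∀ᶠ N : ℕ in atTop, G N x₀ ≠ 0)
    (hD : ∀ᶠ N : ℕ in atTop, Continuous (D N))
    (hDP : ∀ᶠ N : ℕ in atTop, ∀ x, ‖D N x - N * P x‖ ≤ C)
    (hPc : Continuous P) (hP0 : P x₀ = 0) (hP : HasDerivAt P P' x₀)
    (hdom : ∀ᶠ N : ℕ in atTop, ∀ x ∈ Icc 0 c,
      ‖G N x‖ ≤ C₁ * Real.exp (-(N * m * (x - x₀) ^ 2)) * ‖G N x₀‖) :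
    ∃ κ > 0, ∀ᶠ N : ℕ in atTop, κ / Real.sqrt N * ‖G N x₀‖ ≤ ‖∫ x in (0 : ℝ)..c, G N x‖ := by
  -- pointwise limit
  have hlim : ∀ x : ℝ, Tendsto (fun N : ℕ => G N (x₀ + x / Real.sqrt N) / G N x₀) atTop
      (𝓝 (Complex.exp (P' * x ^ 2 / 2))) := by
    intro x
    have e : ∀ᶠ N : ℕ in atTop, G N (x₀ + x / Real.sqrt N) / G N x₀ =
        Complex.exp (∫ t in x₀..(x₀ + x / Real.sqrt N), D N t) := by
      filter_upwards [hG, hG0, hD] with N a1 a2 a3
      rw [sol_exp a1 a3 x₀ (x₀ + x / Real.sqrt N)]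
      field_simp
    rw [tendsto_congr' e]
    apply (Complex.continuous_exp.tendsto _).comp
    have h1 := int_second hPc hP0 hP x
    have h2 : Tendsto (fun N : ℕ => (∫ t in x₀..(x₀ + x / Real.sqrt N), D N t) -
        (N : ℂ) * ∫ t in x₀..(x₀ + x / Real.sqrt N), P t) atTop (𝓝 0) := by
      apply squeeze_zero_norm' (a := fun N : ℕ => C * (|x| / Real.sqrt N))
      · filter_upwards [hD, hDP, eventually_ge_atTop 1] with N a1 a2 a3
        have hNR : (0 : ℝ) < N := by exact_mod_cast a3
        have hs : 0 < Real.sqrt N := Real.sqrt_pos.mpr hNR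
        have hcP : Continuous fun t => (N : ℂ) * P t := by fun_prop
        rw [← intervalIntegral.integral_const_mul, ← intervalIntegral.integral_sub
          (a1.intervalIntegrable _ _) (hcP.intervalIntegrable _ _)]
        have := intervalIntegral.norm_integral_le_of_norm_le_const (a := x₀)
          (b := x₀ + x / Real.sqrt N) (f := fun t => D N t - (N : ℂ) * P t) (C := C)
          (fun t _ => a2 t)
        rwa [add_sub_cancel_left, abs_div, abs_of_pos hs] at this
      · have h4 : Tendsto (fun N : ℕ => |x| / Real.sqrt N) atTop (𝓝 0) := by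
          apply Tendsto.div_atTop tendsto_const_nhds
          exact Real.tendsto_sqrt_atTop.comp tendsto_natCast_atTop_atTop
        simpa using h4.const_mul C
    have h3 := h2.add h1
    simpa using h3
  -- the domination in the scaled variable
  have hdom' : ∀ᶠ N : ℕ in atTop, ∀ x : ℝ, x₀ + x / Real.sqrt N ∈ Icc 0 c →
      ‖G N (x₀ + x / Real.sqrt N) / G N x₀‖ ≤ C₁ * Real.exp (-m * x ^ 2) := by
    filter_upwards [hG0, hdom, eventually_ge_atTop 1] with N a1 a2 a3 x hx
    have hNR : (0 : ℝ) < N := by exact_mod_cast a3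
    have h1 := a2 _ hx
    have hpos : 0 < ‖G N x₀‖ := norm_pos_iff.mpr a1
    rw [norm_div, div_le_iff₀ hpos]
    refine h1.trans (le_of_eq ?_)
    congr 3
    rw [add_sub_cancel_left, div_pow, Real.sq_sqrt hNR.le]
    field_simp
  have hsq : Tendsto (fun N : ℕ => Real.sqrt N) atTop atTop :=
    Real.tendsto_sqrt_atTop.comp tendsto_natCast_atTop_atTop
  have hin : ∀ x : ℝ, ∀ᶠ N : ℕ in atTop, x₀ + x / Real.sqrt N ∈ Ioo 0 c := by
    intro x
    have h4 : Tendsto (fun N : ℕ => x₀ + x / Real.sqrt N) atTop (𝓝 (x₀ + 0)) :=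
      tendsto_const_nhds.add (Tendsto.div_atTop tendsto_const_nhds hsq)
    rw [add_zero] at h4
    exact h4.eventually (Ioo_mem_nhds h0 hc)
  have hle : ∀ x : ℝ, ‖Complex.exp (P' * x ^ 2 / 2)‖ ≤ C₁ * Real.exp (-m * x ^ 2) := by
    intro x
    apply le_of_tendsto (hlim x).norm
    filter_upwards [hdom', hin x] with N a1 a2
    exact a1 x ⟨a2.1.le, a2.2.le⟩
  -- real part of P'
  have hre : P'.re / 2 + m ≤ 0 := by
    by_contra hcon
    push Not at hcon
    set q := P'.re / 2 + m with hq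
    have h1 : ∀ x : ℝ, Real.exp (q * x ^ 2) ≤ C₁ := by
      intro x
      have h2 := hle x
      rw [Complex.norm_exp] at h2
      have e : (P' * (x : ℂ) ^ 2 / 2).re = P'.re / 2 * x ^ 2 := by
        have : P' * (x : ℂ) ^ 2 / 2 = ((x ^ 2 / 2 : ℝ) : ℂ) * P' := by push_cast; ring
        rw [this, Complex.re_ofReal_mul]; ring
      rw [e] at h2
      have h3 : Real.exp (q * x ^ 2) = Real.exp (P'.re / 2 * x ^ 2) * Real.exp (m * x ^ 2) := by
        rw [← Real.exp_add, hq]; ring_nf
      rw [h3]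
      calc Real.exp (P'.re / 2 * x ^ 2) * Real.exp (m * x ^ 2)
          ≤ (C₁ * Real.exp (-m * x ^ 2)) * Real.exp (m * x ^ 2) := by gcongr
        _ = C₁ * (Real.exp (-m * x ^ 2) * Real.exp (m * x ^ 2)) := by ring
        _ = C₁ := by rw [← Real.exp_add]; simp
    have h5 := h1 (Real.sqrt ((C₁ + 1) / q))
    have hC₁ : 0 < C₁ := lt_of_lt_of_le (Real.exp_pos _) (h1 0)
    rw [Real.sq_sqrt (by positivity), mul_div_cancel₀ _ hcon.ne'] at h5
    have h6 := Real.add_one_le_exp (C₁ + 1)
    linarith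
  have hC₁ : 0 ≤ C₁ := by
    have h2 := hle 0
    simp only [Complex.ofReal_zero, ne_eq, OfNat.ofNat_ne_zero, not_false_eq_true, zero_pow,
      mul_zero, zero_div, Complex.exp_zero, norm_one, Real.exp_zero, mul_one] at h2
    linarith
  -- the scaled integral
  have hscaled : ∀ᶠ N : ℕ in atTop, (Real.sqrt N : ℂ) * ((∫ x in (0 : ℝ)..c, G N x) / G N x₀) =
      ∫ x : ℝ, (Ioc (-x₀ * Real.sqrt N) ((c - x₀) * Real.sqrt N)).indicator
        (fun x => G N (x₀ + x / Real.sqrt N) / G N x₀) x := by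
    filter_upwards [eventually_ge_atTop 1] with N a3
    have hNR : (0 : ℝ) < N := by exact_mod_cast a3
    have hs : 0 < Real.sqrt N := Real.sqrt_pos.mpr hNR
    rw [integral_indicator measurableSet_Ioc, ← intervalIntegral.integral_of_le (by nlinarith only [hc, hs, h0])]
    rw [intervalIntegral.integral_div]
    have h1 := intervalIntegral.integral_comp_add_div (f := G N) (c := Real.sqrt N)
      (a := -x₀ * Real.sqrt N) (b := (c - x₀) * Real.sqrt N) hs.ne' x₀
    rw [h1]
    have e1 : x₀ + -x₀ * Real.sqrt N / Real.sqrt N = 0 := by field_simp; ring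
    have e2 : x₀ + (c - x₀) * Real.sqrt N / Real.sqrt N = c := by field_simp; ring
    rw [e1, e2, Complex.real_smul]
    ring
  have hconv : Tendsto (fun N : ℕ => ∫ x : ℝ,
      (Ioc (-x₀ * Real.sqrt N) ((c - x₀) * Real.sqrt N)).indicator
        (fun x => G N (x₀ + x / Real.sqrt N) / G N x₀) x) atTop
      (𝓝 (∫ x : ℝ, Complex.exp (P' * x ^ 2 / 2))) := by
    apply tendsto_integral_filter_of_dominated_convergence
      (bound := fun x => C₁ * Real.exp (-m * x ^ 2))
    · filter_upwards [hG] with N a1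
      apply AEStronglyMeasurable.indicator _ measurableSet_Ioc
      have hc1 : Continuous (G N) := continuous_iff_continuousAt.mpr
        (fun x => (a1 x).continuousAt)
      exact (by fun_prop : Continuous fun x : ℝ => G N (x₀ + x / Real.sqrt N) / G N x₀
        ).aestronglyMeasurable
    · filter_upwards [hdom', eventually_ge_atTop 1] with N a1 a3
      apply Eventually.of_forall
      intro x
      have hNR : (0 : ℝ) < N := by exact_mod_cast a3
      have hs : 0 < Real.sqrt N := Real.sqrt_pos.mpr hNR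
      by_cases hx : x ∈ Ioc (-x₀ * Real.sqrt N) ((c - x₀) * Real.sqrt N)
      · rw [indicator_of_mem hx]
        apply a1
        constructor
        · have h1 : -x₀ ≤ x / Real.sqrt N := by rw [le_div_iff₀ hs]; exact hx.1.le
          linarith only [h1]
        · have h1 : x / Real.sqrt N ≤ c - x₀ := by rw [div_le_iff₀ hs]; exact hx.2
          linarith only [h1]
      · rw [indicator_of_notMem hx, norm_zero]
        positivity
    · exact (integrable_exp_neg_mul_sq hm).const_mul _
    · apply Eventually.of_forall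
      intro x
      apply (hlim x).congr'
      filter_upwards [hin x, eventually_ge_atTop 1] with N a1 a3
      have hNR : (0 : ℝ) < N := by exact_mod_cast a3
      have hs : 0 < Real.sqrt N := Real.sqrt_pos.mpr hNR
      rw [indicator_of_mem]
      constructor
      · have h1 : -x₀ < x / Real.sqrt N := by linarith only [a1.1, a1]
        rwa [lt_div_iff₀ hs] at h1
      · have h1 : x / Real.sqrt N < c - x₀ := by linarith only [a1.2, a1]
        rw [div_lt_iff₀ hs] at h1
        exact h1.le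
  -- the Gaussian integral
  set I := ∫ x : ℝ, Complex.exp (P' * x ^ 2 / 2) with hI
  have hIne : I ≠ 0 := by
    have hb : 0 < (-P' / 2).re := by
      have e : -P' / 2 = ((-(1 / 2) : ℝ) : ℂ) * P' := by push_cast; ring
      rw [e, Complex.re_ofReal_mul]
      linarith only [hre, hm]
    have h1 := integral_gaussian_complex hb
    have e : (fun x : ℝ => Complex.exp (P' * x ^ 2 / 2)) =
        fun x : ℝ => Complex.exp (-(-P' / 2) * x ^ 2) := by
      funext x; congr 1; ring
    rw [hI, e, h1]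
    have hne : (-P' / 2) ≠ 0 := by
      intro h; rw [h] at hb; simp at hb
    rw [Complex.cpow_def_of_ne_zero (div_ne_zero (by exact_mod_cast Real.pi_ne_zero) hne)]
    exact Complex.exp_ne_zero _
  refine ⟨‖I‖ / 2, by have := norm_pos_iff.mpr hIne; positivity, ?_⟩
  have h7 := hconv.norm
  have h8 : ∀ᶠ N : ℕ in atTop, ‖I‖ / 2 < ‖∫ x : ℝ,
      (Ioc (-x₀ * Real.sqrt N) ((c - x₀) * Real.sqrt N)).indicator
        (fun x => G N (x₀ + x / Real.sqrt N) / G N x₀) x‖ :=
    h7.eventually (lt_mem_nhds (by have := norm_pos_iff.mpr hIne; linarith))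
  filter_upwards [h8, hscaled, hG0, eventually_ge_atTop 1] with N a1 a2 a4 a3
  have hNR : (0 : ℝ) < N := by exact_mod_cast a3
  have hs : 0 < Real.sqrt N := Real.sqrt_pos.mpr hNR
  rw [← a2, norm_mul, norm_div, Complex.norm_real, Real.norm_eq_abs, abs_of_pos hs] at a1
  have hpos : 0 < ‖G N x₀‖ := norm_pos_iff.mpr a4
  rw [mul_div_assoc', lt_div_iff₀ hpos] at a1
  rw [div_mul_eq_mul_div, div_le_iff₀ hs]
  linarith only [a1]

end Pool.Agent.Helper9.TB
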