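import Pool.Agent.Helper96.TB.GBnd

/-!
# The logarithmic derivative of the integrand
-/

namespace Pool.Agent.Helper9.TB

open Finset MeasureTheory

/-- the kernel of the logarithmic derivative -/
noncomputable def gL (h ξ x : ℝ) : ℂ :=
  dLy (pt ξ h) / (Ly (pt ξ h) - ((2 * Real.cos (2 * Real.pi * x) : ℝ) : ℂ))

lemma norm_Ly_sub_real {h : ℝ} (hh : 0 < h) (ξ x : ℝ) :
    ‖Ly (pt ξ h) - ((2 * Real.cos (2 * Real.pi * x) : ℝ) : ℂ)‖ =
      Real.exp (ee h (ξ + x) + ee h (ξ - x)) := by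
  rw [Real.exp_add, ← norm_two_cos hh, ← norm_two_cos hh, ← norm_mul, ← norm_neg]
  congr 1
  unfold Ly pt
  have h1 := Complex.cos_add_cos (2 * Real.pi * ((ξ : ℂ) + (-h : ℝ) * Complex.I))
    (((2 * Real.pi * x : ℝ)) : ℂ)
  have e1 : (2 * Real.pi * ((ξ : ℂ) + (-h : ℝ) * Complex.I) +
      (((2 * Real.pi * x : ℝ)) : ℂ)) / 2 =
      Real.pi * (((ξ + x : ℝ) : ℂ) + (-h : ℝ) * Complex.I) := by
    push_cast
    ring
  have e2 : (2 * Real.pi * ((ξ : ℂ) + (-h : ℝ) * Complex.I) -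
      (((2 * Real.pi * x : ℝ)) : ℂ)) / 2 =
      Real.pi * (((ξ - x : ℝ) : ℂ) + (-h : ℝ) * Complex.I) := by
    push_cast
    ring
  rw [e1, e2] at h1
  rw [← Complex.ofReal_cos] at h1
  push_cast at h1 ⊢
  linear_combination (2 : ℂ) * h1

lemma ee_ge {h : ℝ} (hh : 0 < h) (u : ℝ) :
    Real.log (2 * (Real.cosh (2 * Real.pi * h) - 1)) / 2 ≤ ee h u := by
  unfold ee
  have h1 := cosh_gap hh le_rfl u
  have h2 := cosh_gap_pos hh
  gcongr

lemma Ly_gap {h : ℝ} (hh : 0 < h) (ξ x : ℝ) :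
    2 * (Real.cosh (2 * Real.pi * h) - 1) ≤
      ‖Ly (pt ξ h) - ((2 * Real.cos (2 * Real.pi * x) : ℝ) : ℂ)‖ := by
  rw [norm_Ly_sub_real hh]
  have h2 := cosh_gap_pos hh
  have h3 := ee_ge hh (ξ + x)
  have h4 := ee_ge hh (ξ - x)
  rw [← Real.exp_log (show 0 < 2 * (Real.cosh (2 * Real.pi * h) - 1) by linarith only [h2])]
  apply Real.exp_le_exp.mpr
  linarith only [h4, h3]

lemma Ly_gap_ne {h : ℝ} (hh : 0 < h) (ξ x : ℝ) :
    Ly (pt ξ h) - ((2 * Real.cos (2 * Real.pi * x) : ℝ) : ℂ) ≠ 0 := by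
  have h1 := Ly_gap hh ξ x
  have h2 := cosh_gap_pos hh
  rw [← norm_pos_iff]
  linarith only [h2, h1]

lemma lam_eq {N : ℕ} (k : ℕ) :
    lam N k = ((2 * Real.cos (2 * Real.pi * ((2 * k + 1) / (2 * N))) : ℝ) : ℂ) := by
  unfold lam lamR
  congr 3
  by_cases hN : (N : ℝ) = 0
  · simp [hN]
  · field_simp

lemma norm_gL_le {h : ℝ} (hh : 0 < h) (ξ x : ℝ) :
    ‖gL h ξ x‖ ≤ 4 * Real.pi * Real.cosh (2 * Real.pi * h) /
      (2 * (Real.cosh (2 * Real.pi * h) - 1)) := by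
  unfold gL
  rw [norm_div]
  have h2 := cosh_gap_pos hh
  have h3 := Ly_gap hh ξ x
  have h4 := norm_dLy_le ξ h
  have := Real.cosh_pos (2 * Real.pi * h)
  have := Real.pi_pos
  gcongr

/-- the Lipschitz constant of `gL` in `x` -/
noncomputable def LL (h : ℝ) : ℝ :=
  4 * Real.pi * Real.cosh (2 * Real.pi * h) * (4 * Real.pi) /
      (2 * (Real.cosh (2 * Real.pi * h) - 1)) ^ 2

lemma LL_nonneg {h : ℝ} (hh : 0 < h) : 0 ≤ LL h := by
  unfold LL
  have h2 := cosh_gap_pos hh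
  have := Real.cosh_pos (2 * Real.pi * h)
  have := Real.pi_pos
  positivity

lemma gL_lip {h : ℝ} (hh : 0 < h) (ξ x x' : ℝ) :
    ‖gL h ξ x - gL h ξ x'‖ ≤ LL h * |x - x'| := by
  unfold gL LL
  have n1 := Ly_gap_ne hh ξ x
  have n2 := Ly_gap_ne hh ξ x'
  have h2 := cosh_gap_pos hh
  have g1 := Ly_gap hh ξ x
  have g2 := Ly_gap hh ξ x'
  have h4 := norm_dLy_le ξ h
  have hcp := Real.cosh_pos (2 * Real.pi * h)
  have hpi := Real.pi_pos
  set A := Ly (pt ξ h) - ((2 * Real.cos (2 * Real.pi * x) : ℝ) : ℂ) with hA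
  set B := Ly (pt ξ h) - ((2 * Real.cos (2 * Real.pi * x') : ℝ) : ℂ) with hB
  have e : dLy (pt ξ h) / A - dLy (pt ξ h) / B = dLy (pt ξ h) * (B - A) / (A * B) := by
    field_simp
  have e2 : B - A = ((2 * (Real.cos (2 * Real.pi * x) - Real.cos (2 * Real.pi * x')) : ℝ) : ℂ) := by
    rw [hA, hB]; push_cast; ring
  have h5 : ‖B - A‖ ≤ 4 * Real.pi * |x - x'| := by
    rw [e2, Complex.norm_real, Real.norm_eq_abs, abs_mul, abs_two]
    have h6 := abs_cos_sub_cos_le' (2 * Real.pi * x) (2 * Real.pi * x')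
    rw [← mul_sub, abs_mul (2 * Real.pi), abs_of_pos (show 0 < 2 * Real.pi by positivity)] at h6
    linarith only [h6]
  rw [e, norm_div, norm_mul, norm_mul]
  calc ‖dLy (pt ξ h)‖ * ‖B - A‖ / (‖A‖ * ‖B‖)
      ≤ (4 * Real.pi * Real.cosh (2 * Real.pi * h)) * (4 * Real.pi * |x - x'|) /
        ((2 * (Real.cosh (2 * Real.pi * h) - 1)) * (2 * (Real.cosh (2 * Real.pi * h) - 1))) := by
        gcongr
    _ = _ := by ring

lemma gL_cont {h : ℝ} (hh : 0 < h) (ξ : ℝ) : Continuous (gL h ξ) := by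
  unfold gL
  apply Continuous.div continuous_const
  · fun_prop
  · intro x; exact Ly_gap_ne hh ξ x

lemma pt_cont (h : ℝ) : Continuous fun ξ => pt ξ h := by unfold pt; fun_prop

lemma Ly_cont : Continuous Ly := by unfold Ly; fun_prop

lemma dLy_cont : Continuous dLy := by unfold dLy; fun_prop

lemma gL_cont2 {h : ℝ} (hh : 0 < h) : Continuous fun q : ℝ × ℝ => gL h q.1 q.2 := by
  unfold gL
  apply Continuous.div
  · exact dLy_cont.comp ((pt_cont h).comp continuous_fst)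
  · exact (Ly_cont.comp ((pt_cont h).comp continuous_fst)).sub (by fun_prop)
  · intro x; exact Ly_gap_ne hh _ _

/-- midpoint rule for the kernel -/
lemma mid_gL {h : ℝ} (hh : 0 < h) (ξ : ℝ) {N l m : ℕ} (hN : 1 ≤ N) (hlm : l ≤ m) (hm : m ≤ N) :
    ‖(∑ k ∈ Ico l m, gL h ξ ((2 * k + 1) / (2 * N))) -
      N * ∫ x in ((l : ℝ) / N)..((m : ℝ) / N), gL h ξ x‖ ≤ LL h / 2 := by
  have hNR : (0 : ℝ) < N := by positivity
  have hgc := gL_cont hh ξ
  have h1 : ∫ x in ((l : ℝ) / N)..((m : ℝ) / N), gL h ξ x =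
      ∑ k ∈ Ico l m, ∫ x in ((k : ℝ) / N)..(((k + 1 : ℕ) : ℝ) / N), gL h ξ x := by
    rw [intervalIntegral.sum_integral_adjacent_intervals_Ico hlm]
    intro k _
    exact hgc.intervalIntegrable _ _
  rw [h1, mul_sum, ← sum_sub_distrib]
  refine (norm_sum_le _ _).trans ?_
  have h2 : ∀ k ∈ Ico l m, ‖gL h ξ ((2 * k + 1) / (2 * N)) -
      N * ∫ x in ((k : ℝ) / N)..(((k + 1 : ℕ) : ℝ) / N), gL h ξ x‖ ≤ LL h / (2 * N) := by
    intro k _
    have e0 : ((k + 1 : ℕ) : ℝ) / N - (k : ℝ) / N = 1 / N := by push_cast; ring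
    have e1 : gL h ξ ((2 * k + 1) / (2 * N)) -
        N * ∫ x in ((k : ℝ) / N)..(((k + 1 : ℕ) : ℝ) / N), gL h ξ x =
        N * ∫ x in ((k : ℝ) / N)..(((k + 1 : ℕ) : ℝ) / N),
          (gL h ξ ((2 * k + 1) / (2 * N)) - gL h ξ x) := by
      rw [intervalIntegral.integral_sub intervalIntegrable_const (hgc.intervalIntegrable _ _),
        intervalIntegral.integral_const, e0, Complex.real_smul]
      have : (N : ℂ) ≠ 0 := by exact_mod_cast hNR.ne'
      push_cast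
      field_simp
    rw [e1, norm_mul, Complex.norm_natCast]
    have h3 := intervalIntegral.norm_integral_le_of_norm_le_const (a := (k : ℝ) / N)
      (b := ((k + 1 : ℕ) : ℝ) / N)
      (f := fun x => gL h ξ ((2 * k + 1) / (2 * N)) - gL h ξ x) (C := LL h * (1 / (2 * N))) ?_
    · rw [e0, abs_of_pos (by positivity)] at h3
      calc (N : ℝ) * _ ≤ N * (LL h * (1 / (2 * N)) * (1 / N)) := by gcongr
        _ = LL h / (2 * N) := by field_simp
    · intro x hx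
      rw [Set.uIoc_of_le (by rw [← sub_nonneg, e0]; positivity)] at hx
      refine (gL_lip hh ξ _ _).trans ?_
      have hL := LL_nonneg hh
      gcongr
      have e2 : (2 * (k : ℝ) + 1) / (2 * N) = (k : ℝ) / N + 1 / (2 * N) := by field_simp
      have e3 : ((k + 1 : ℕ) : ℝ) / N = (k : ℝ) / N + 1 / N := by push_cast; ring
      have e4 : (1 : ℝ) / N = 2 * (1 / (2 * N)) := by field_simp
      rw [e3, e4] at hx
      rw [e2, abs_le]
      constructor <;> linarith only [hx.1, hx.2, hx]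
  refine (sum_le_sum h2).trans ?_
  rw [sum_const, Nat.card_Ico, nsmul_eq_mul]
  have h3 : ((m - l : ℕ) : ℝ) ≤ N := by exact_mod_cast (by omega)
  have hL := LL_nonneg hh
  calc ((m - l : ℕ) : ℝ) * (LL h / (2 * N)) ≤ N * (LL h / (2 * N)) := by gcongr
    _ = LL h / 2 := by field_simp

lemma Ly_deriv (y : ℂ) : HasDerivAt Ly (dLy y) y := by
  have h1 : HasDerivAt (fun y : ℂ => 2 * Real.pi * y) (2 * Real.pi) y := by
    simpa using (hasDerivAt_id y).const_mul (2 * (Real.pi : ℂ))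
  have h2 := (h1.ccos).const_mul (-2 : ℂ)
  unfold Ly dLy
  refine h2.congr_deriv ?_
  ring

/-- the derivative of `dLy` -/
noncomputable def ddLy (y : ℂ) : ℂ := 8 * Real.pi ^ 2 * Complex.cos (2 * Real.pi * y)

lemma dLy_deriv (y : ℂ) : HasDerivAt dLy (ddLy y) y := by
  have h1 : HasDerivAt (fun y : ℂ => 2 * Real.pi * y) (2 * Real.pi) y := by
    simpa using (hasDerivAt_id y).const_mul (2 * (Real.pi : ℂ))
  have h2 := (h1.csin).const_mul (4 * Real.pi : ℂ)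
  unfold dLy ddLy
  refine h2.congr_deriv ?_
  ring

lemma norm_ddLy_le (ξ h : ℝ) : ‖ddLy (pt ξ h)‖ ≤ 8 * Real.pi ^ 2 * Real.cosh (2 * Real.pi * h) := by
  unfold ddLy
  have h1 : ‖Complex.cos (2 * Real.pi * pt ξ h)‖ ≤ Real.cosh (2 * Real.pi * h) := by
    apply le_of_sq_le_sq _ (Real.cosh_pos _).le
    unfold pt
    have h1 : (2 : ℂ) * Real.pi * ((ξ : ℂ) + (-h : ℝ) * Complex.I) =
      ((2 * Real.pi * ξ : ℝ) : ℂ) + ((-(2 * Real.pi * h) : ℝ) : ℂ) * Complex.I := by push_cast; ring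
    rw [h1, Complex.cos_add_mul_I, ← Complex.normSq_eq_norm_sq]
    rw [← Complex.ofReal_cos, ← Complex.ofReal_sin, ← Complex.ofReal_cosh, ← Complex.ofReal_sinh]
    rw [Complex.normSq_apply]
    simp only [Complex.sub_re, Complex.mul_re, Complex.ofReal_re, Complex.ofReal_im, mul_zero,
      sub_zero, Complex.I_re, Complex.I_im, Complex.mul_im, Complex.sub_im, add_zero, mul_one,
      zero_sub, zero_mul]
    rw [Real.cosh_neg, Real.sinh_neg]
    have e3 := Real.cosh_sq (2 * Real.pi * h)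
    have e4 := Real.cos_sq' (2 * Real.pi * ξ)
    have e5 := sq_nonneg (Real.sin (2 * Real.pi * ξ))
    have e6 : Real.cos (2 * Real.pi * ξ) * Real.cosh (2 * Real.pi * h) *
        (Real.cos (2 * Real.pi * ξ) * Real.cosh (2 * Real.pi * h)) +
        (0 - Real.sin (2 * Real.pi * ξ) * -Real.sinh (2 * Real.pi * h)) *
        (0 - Real.sin (2 * Real.pi * ξ) * -Real.sinh (2 * Real.pi * h)) =
        Real.cosh (2 * Real.pi * h) ^ 2 - Real.sin (2 * Real.pi * ξ) ^ 2 := by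
      linear_combination (Real.cosh (2 * Real.pi * h) ^ 2) * e4 -
        (Real.sin (2 * Real.pi * ξ) ^ 2) * e3
    nlinarith only [e6]
  have e : ‖(8 : ℂ) * (Real.pi : ℂ) ^ 2‖ = 8 * Real.pi ^ 2 := by
    rw [norm_mul, norm_pow, Complex.norm_real, Real.norm_eq_abs, abs_of_pos Real.pi_pos]; norm_num
  rw [norm_mul, e]
  gcongr

lemma dLy_ne {h : ℝ} (hh : 0 < h) (ξ : ℝ) : dLy (pt ξ h) ≠ 0 := by
  have h1 := norm_dLy_ge ξ h
  have h2 : 0 < Real.sinh (2 * Real.pi * h) := Real.sinh_pos_iff.mpr (by positivity)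
  have := Real.pi_pos
  rw [← norm_pos_iff]
  have : 0 < 4 * Real.pi * Real.sinh (2 * Real.pi * h) := by positivity
  linarith

lemma prod_deriv {h : ℝ} (hh : 0 < h) (ξ : ℝ) (N : ℕ) (s : Finset ℕ) :
    HasDerivAt (fun y => ∏ k ∈ s, (Ly y - lam N k))
      ((∏ k ∈ s, (Ly (pt ξ h) - lam N k)) * ∑ k ∈ s, gL h ξ ((2 * k + 1) / (2 * N)))
      (pt ξ h) := by
  classical
  induction s using Finset.induction_on with
  | empty => simpa using hasDerivAt_const (pt ξ h) (1 : ℂ)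
  | insert a s ha ih =>
    have h1 := ((Ly_deriv (pt ξ h)).sub_const (lam N a)).mul ih
    have e : (fun y => ∏ k ∈ insert a s, (Ly y - lam N k)) =
        (fun y => Ly y - lam N a) * (fun y => ∏ k ∈ s, (Ly y - lam N k)) := by
      funext y
      rw [prod_insert ha]
      rfl
    rw [e]
    refine h1.congr_deriv ?_
    rw [prod_insert ha, sum_insert ha]
    have hne : Ly (pt ξ h) - lam N a ≠ 0 := by rw [lam_eq]; exact Ly_gap_ne hh ξ _
    have e3 : (Ly (pt ξ h) - lam N a) * gL h ξ ((2 * a + 1) / (2 * N)) = dLy (pt ξ h) := by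
      unfold gL
      rw [lam_eq] at hne ⊢
      exact mul_div_cancel₀ _ hne
    linear_combination (-(∏ k ∈ s, (Ly (pt ξ h) - lam N k))) * e3

/-- the logarithmic derivative of `GB` along a horizontal line -/
noncomputable def DD (r N l n : ℕ) (h ξ : ℝ) : ℂ :=
  2 * Real.pi * Complex.I * (r * N) * pt ξ h + ddLy (pt ξ h) / dLy (pt ξ h) -
    ∑ k ∈ Ico l (l + n + 1), gL h ξ ((2 * k + 1) / (2 * N))

lemma GB_hasDeriv (r N l n : ℕ) {h : ℝ} (hh : 0 < h) (ξ : ℝ) :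
    HasDerivAt (fun ξ => GB r N l n (pt ξ h)) (GB r N l n (pt ξ h) * DD r N l n h ξ) ξ := by
  have hpt : HasDerivAt (fun ξ : ℝ => pt ξ h) 1 ξ := by
    unfold pt
    have h1 : HasDerivAt (fun ξ : ℝ => (ξ : ℂ)) 1 ξ := Complex.ofRealCLM.hasDerivAt
    simpa using h1.add_const ((-h : ℝ) * Complex.I)
  have h1 : HasDerivAt (fun y : ℂ => Complex.exp (Real.pi * Complex.I * (r * (N : ℝ)) * y ^ 2))
      (Complex.exp (Real.pi * Complex.I * (r * (N : ℝ)) * (pt ξ h) ^ 2) *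
        (2 * Real.pi * Complex.I * (r * N) * pt ξ h)) (pt ξ h) := by
    have h2 := ((hasDerivAt_pow 2 (pt ξ h)).const_mul (Real.pi * Complex.I * (r * (N : ℝ)))).cexp
    refine h2.congr_deriv ?_
    push_cast
    ring
  have h2 := prod_deriv hh ξ N (Ico l (l + n + 1))
  have hne : (∏ k ∈ Ico l (l + n + 1), (Ly (pt ξ h) - lam N k)) ≠ 0 := by
    rw [prod_ne_zero_iff]
    intro k _
    rw [lam_eq]; exact Ly_gap_ne hh ξ _
  have h3 := HasDerivAt.fun_div (dLy_deriv (pt ξ h)) h2 hne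
  have h4 := HasDerivAt.const_mul (∏ k ∈ Ico (l + 1) (l + n + 1), bb N k) (HasDerivAt.fun_mul h1 h3)
  have hd := dLy_ne hh ξ
  have h5 : HasDerivAt (GB r N l n) (GB r N l n (pt ξ h) * DD r N l n h ξ) (pt ξ h) := by
    refine (h4.congr_deriv ?_)
    unfold GB GG KR DD
    have hc : ((N : ℝ) : ℂ) = (N : ℂ) := by push_cast; rfl
    rw [hc]
    generalize (∑ k ∈ Ico l (l + n + 1), gL h ξ ((2 * k + 1) / (2 * N))) = S
    generalize (∏ k ∈ Ico (l + 1) (l + n + 1), bb N k) = Q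
    generalize (∏ k ∈ Ico l (l + n + 1), (Ly (pt ξ h) - lam N k)) = R at hne ⊢
    generalize Complex.exp (Real.pi * Complex.I * (r * (N : ℂ)) * (pt ξ h) ^ 2) = E
    generalize dLy (pt ξ h) = d at hd ⊢
    field_simp
    ring
  have h6 := HasDerivAt.scomp ξ h5 hpt
  rw [one_smul] at h6
  exact h6

lemma GB_ne (r : ℕ) {N l n : ℕ} (hln : l + n < N) {h : ℝ} (hh : 0 < h) (ξ : ℝ) :
    GB r N l n (pt ξ h) ≠ 0 := by
  rw [← norm_pos_iff, norm_GB hln hh]
  exact mul_pos (Real.exp_pos _) (norm_pos_iff.mpr (dLy_ne hh ξ))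

lemma ddLy_cont : Continuous ddLy := by unfold ddLy; fun_prop

lemma gL_cont1 {h : ℝ} (hh : 0 < h) (x : ℝ) : Continuous fun ξ : ℝ => gL h ξ x := by
  have hp := pt_cont h
  have a : Continuous fun ξ : ℝ => dLy (pt ξ h) := dLy_cont.comp hp
  have b : Continuous fun ξ : ℝ => Ly (pt ξ h) := Ly_cont.comp hp
  exact a.div (b.sub continuous_const) (fun ξ => Ly_gap_ne hh ξ x)

lemma DD_cont (r N l n : ℕ) {h : ℝ} (hh : 0 < h) : Continuous (DD r N l n h) := by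
  have hp := pt_cont h
  have a : Continuous fun ξ : ℝ => ddLy (pt ξ h) := ddLy_cont.comp hp
  have b : Continuous fun ξ : ℝ => dLy (pt ξ h) := dLy_cont.comp hp
  have c : Continuous fun ξ : ℝ => ddLy (pt ξ h) / dLy (pt ξ h) := a.div b (dLy_ne hh)
  have d : Continuous fun ξ : ℝ => (2 * Real.pi * Complex.I * (r * N) : ℂ) * pt ξ h :=
    continuous_const.mul hp
  have e : Continuous fun ξ : ℝ =>
      ∑ k ∈ Ico l (l + n + 1), gL h ξ ((2 * k + 1) / (2 * N)) :=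
    continuous_finsetSum _ (fun k _ => gL_cont1 hh _)
  exact (d.add c).sub e

lemma PP_eq (r : ℕ) (β α h ξ : ℝ) : PP r β α (pt ξ h) =
    2 * Real.pi * Complex.I * r * pt ξ h - ∫ x in β..α, gL h ξ x := rfl

/-- the logarithmic derivative is `N * PP + O(1)` -/
theorem GB_logder (r : ℕ) {h : ℝ} (hh : 0 < h) (β α B : ℝ) : ∃ C : ℝ, ∀ N l n : ℕ, 2 ≤ N →
    l + n < N → |(l : ℝ) - N * β| ≤ B → |((l + n + 1 : ℕ) : ℝ) - N * α| ≤ B → ∀ ξ : ℝ,
    ‖DD r N l n h ξ - N * PP r β α (pt ξ h)‖ ≤ C := by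
  set M := 4 * Real.pi * Real.cosh (2 * Real.pi * h) /
      (2 * (Real.cosh (2 * Real.pi * h) - 1)) with hM
  have hs : 0 < Real.sinh (2 * Real.pi * h) := Real.sinh_pos_iff.mpr (by positivity)
  have hpi := Real.pi_pos
  refine ⟨(8 * Real.pi ^ 2 * Real.cosh (2 * Real.pi * h)) / (4 * Real.pi * Real.sinh (2 * Real.pi * h))
    + LL h / 2 + M * B + M * B, ?_⟩
  intro N l n hN hln hl hn ξ
  have hNR : (0 : ℝ) < N := by exact_mod_cast (by omega : 0 < N)
  have hgi : ∀ a b, IntervalIntegrable (gL h ξ) volume a b := fun a b =>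
    (gL_cont hh ξ).intervalIntegrable _ _
  have e1 : DD r N l n h ξ - N * PP r β α (pt ξ h) =
      ddLy (pt ξ h) / dLy (pt ξ h) -
      ((∑ k ∈ Ico l (l + n + 1), gL h ξ ((2 * k + 1) / (2 * N))) -
        N * ∫ x in ((l : ℝ) / N)..(((l + n + 1 : ℕ) : ℝ) / N), gL h ξ x) +
      N * (∫ x in β..((l : ℝ) / N), gL h ξ x) -
      N * (∫ x in α..(((l + n + 1 : ℕ) : ℝ) / N), gL h ξ x) := by
    rw [PP_eq]
    unfold DD
    have h1 := intervalIntegral.integral_add_adjacent_intervals (hgi β ((l : ℝ) / N))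
      (hgi ((l : ℝ) / N) (((l + n + 1 : ℕ) : ℝ) / N))
    have h2 := intervalIntegral.integral_add_adjacent_intervals (hgi β α)
      (hgi α (((l + n + 1 : ℕ) : ℝ) / N))
    linear_combination (-(N : ℂ)) * h1 + (N : ℂ) * h2
  rw [e1]
  have b1 : ‖ddLy (pt ξ h) / dLy (pt ξ h)‖ ≤
      (8 * Real.pi ^ 2 * Real.cosh (2 * Real.pi * h)) / (4 * Real.pi * Real.sinh (2 * Real.pi * h)) := by
    rw [norm_div]
    have := norm_ddLy_le ξ h
    have := norm_dLy_ge ξ h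
    have := Real.cosh_pos (2 * Real.pi * h)
    gcongr
  have b2 := mid_gL hh ξ (by omega : 1 ≤ N) (by omega : l ≤ l + n + 1) (by omega : l + n + 1 ≤ N)
  have hM0 : 0 ≤ M := (norm_nonneg _).trans (norm_gL_le hh 0 0)
  have gen : ∀ (a : ℝ) (j : ℕ), |(j : ℝ) - N * a| ≤ B →
      ‖(N : ℂ) * ∫ x in a..((j : ℝ) / N), gL h ξ x‖ ≤ M * B := by
    intro a j hj
    rw [norm_mul, Complex.norm_natCast]
    have h3 := intervalIntegral.norm_integral_le_of_norm_le_const (a := a)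
      (b := (j : ℝ) / N) (f := gL h ξ) (C := M) (fun x _ => norm_gL_le hh ξ x)
    have h4 : |(j : ℝ) / N - a| = |(j : ℝ) - N * a| / N := by
      rw [← abs_of_pos hNR, ← abs_div, abs_of_pos hNR]
      congr 1
      field_simp
    rw [h4] at h3
    calc (N : ℝ) * _ ≤ N * (M * (|(j : ℝ) - N * a| / N)) := by gcongr
      _ = M * |(j : ℝ) - N * a| := by field_simp
      _ ≤ M * B := by gcongr
  have b3 := gen β l hl
  have b4 := gen α (l + n + 1) hn
  calc _ ≤ ‖ddLy (pt ξ h) / dLy (pt ξ h) -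
      ((∑ k ∈ Ico l (l + n + 1), gL h ξ ((2 * k + 1) / (2 * N))) -
        N * ∫ x in ((l : ℝ) / N)..(((l + n + 1 : ℕ) : ℝ) / N), gL h ξ x) +
      N * (∫ x in β..((l : ℝ) / N), gL h ξ x)‖ +
      ‖(N : ℂ) * (∫ x in α..(((l + n + 1 : ℕ) : ℝ) / N), gL h ξ x)‖ := norm_sub_le _ _
    _ ≤ (‖ddLy (pt ξ h) / dLy (pt ξ h) -
      ((∑ k ∈ Ico l (l + n + 1), gL h ξ ((2 * k + 1) / (2 * N))) -
        N * ∫ x in ((l : ℝ) / N)..(((l + n + 1 : ℕ) : ℝ) / N), gL h ξ x)‖ +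
      ‖(N : ℂ) * (∫ x in β..((l : ℝ) / N), gL h ξ x)‖) +
      ‖(N : ℂ) * (∫ x in α..(((l + n + 1 : ℕ) : ℝ) / N), gL h ξ x)‖ := by
        gcongr; exact norm_add_le _ _
    _ ≤ ((‖ddLy (pt ξ h) / dLy (pt ξ h)‖ +
      ‖(∑ k ∈ Ico l (l + n + 1), gL h ξ ((2 * k + 1) / (2 * N))) -
        N * ∫ x in ((l : ℝ) / N)..(((l + n + 1 : ℕ) : ℝ) / N), gL h ξ x‖) +
      ‖(N : ℂ) * (∫ x in β..((l : ℝ) / N), gL h ξ x)‖) +
      ‖(N : ℂ) * (∫ x in α..(((l + n + 1 : ℕ) : ℝ) / N), gL h ξ x)‖ := by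
        gcongr; exact norm_sub_le _ _
    _ ≤ _ := by gcongr

end Pool.Agent.Helper9.TB
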