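import Pool.Agent.Helper85.TB.Abs
import Pool.Agent.Helper85.TB.LogDer

/-!
# The Laplace lower bound of the saddle point integral
-/

namespace Pool.Agent.Helper9.TB

open Finset MeasureTheory Filter Topology

/-- the derivative of `gL` in `ξ` -/
noncomputable def gL' (h ξ x : ℝ) : ℂ :=
  (ddLy (pt ξ h) * (Ly (pt ξ h) - ((2 * Real.cos (2 * Real.pi * x) : ℝ) : ℂ)) -
    dLy (pt ξ h) * dLy (pt ξ h)) /
    (Ly (pt ξ h) - ((2 * Real.cos (2 * Real.pi * x) : ℝ) : ℂ)) ^ 2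

lemma pt_deriv (h ξ : ℝ) : HasDerivAt (fun ξ : ℝ => pt ξ h) 1 ξ := by
  unfold pt
  have h1 : HasDerivAt (fun ξ : ℝ => (ξ : ℂ)) 1 ξ := Complex.ofRealCLM.hasDerivAt
  simpa using h1.add_const ((-h : ℝ) * Complex.I)

lemma gL_deriv {h : ℝ} (hh : 0 < h) (ξ x : ℝ) :
    HasDerivAt (fun ξ => gL h ξ x) (gL' h ξ x) ξ := by
  have h1 := HasDerivAt.fun_div (dLy_deriv (pt ξ h))
    ((Ly_deriv (pt ξ h)).sub_const ((2 * Real.cos (2 * Real.pi * x) : ℝ) : ℂ)) (Ly_gap_ne hh ξ x)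
  have h2 := HasDerivAt.scomp ξ h1 (pt_deriv h ξ)
  rw [one_smul] at h2
  exact h2

lemma gL'_cont {h : ℝ} (hh : 0 < h) (ξ : ℝ) : Continuous (gL' h ξ) := by
  have a : Continuous fun x : ℝ =>
      (Ly (pt ξ h) - ((2 * Real.cos (2 * Real.pi * x) : ℝ) : ℂ)) := by fun_prop
  unfold gL'
  exact ((continuous_const.mul a).sub continuous_const).div (a.pow 2)
    (fun x => pow_ne_zero 2 (Ly_gap_ne hh ξ x))

lemma norm_Ly_le (ξ h : ℝ) : ‖Ly (pt ξ h)‖ ≤ 2 * Real.cosh (2 * Real.pi * h) := by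
  have h1 := norm_ddLy_le ξ h
  have hpi := Real.pi_pos
  have e : Ly (pt ξ h) * ((-4 * Real.pi ^ 2 : ℝ) : ℂ) = ddLy (pt ξ h) := by
    unfold ddLy Ly
    push_cast
    ring
  rw [← e, norm_mul, Complex.norm_real, Real.norm_eq_abs,
    show |(-4 * Real.pi ^ 2 : ℝ)| = 4 * Real.pi ^ 2 by
      rw [abs_of_neg (by nlinarith only [sq_nonneg Real.pi, pow_pos hpi 2, hpi])]; ring] at h1
  have h2 : (0 : ℝ) < 4 * Real.pi ^ 2 := by positivity
  nlinarith only [h2, h1]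

/-- a bound for `gL'` -/
noncomputable def MM (h : ℝ) : ℝ :=
  (8 * Real.pi ^ 2 * Real.cosh (2 * Real.pi * h) * (2 * Real.cosh (2 * Real.pi * h) + 2) +
    (4 * Real.pi * Real.cosh (2 * Real.pi * h)) * (4 * Real.pi * Real.cosh (2 * Real.pi * h))) /
    (2 * (Real.cosh (2 * Real.pi * h) - 1)) ^ 2

lemma norm_gL'_le {h : ℝ} (hh : 0 < h) (ξ x : ℝ) : ‖gL' h ξ x‖ ≤ MM h := by
  unfold gL' MM
  have g1 := Ly_gap hh ξ x
  have h2 := cosh_gap_pos hh
  have hcp := Real.cosh_pos (2 * Real.pi * h)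
  have hpi := Real.pi_pos
  have h3 := norm_dLy_le ξ h
  have h4 := norm_ddLy_le ξ h
  have h5 : ‖Ly (pt ξ h) - ((2 * Real.cos (2 * Real.pi * x) : ℝ) : ℂ)‖ ≤
      2 * Real.cosh (2 * Real.pi * h) + 2 := by
    refine (norm_sub_le _ _).trans ?_
    have h6 := norm_Ly_le ξ h
    have h7 : ‖((2 * Real.cos (2 * Real.pi * x) : ℝ) : ℂ)‖ ≤ 2 := by
      rw [Complex.norm_real, Real.norm_eq_abs, abs_mul, abs_two]
      have := Real.abs_cos_le_one (2 * Real.pi * x)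
      linarith
    linarith
  rw [norm_div, norm_pow]
  have h6 : ‖ddLy (pt ξ h) * (Ly (pt ξ h) - ((2 * Real.cos (2 * Real.pi * x) : ℝ) : ℂ)) -
      dLy (pt ξ h) * dLy (pt ξ h)‖ ≤
      8 * Real.pi ^ 2 * Real.cosh (2 * Real.pi * h) * (2 * Real.cosh (2 * Real.pi * h) + 2) +
      (4 * Real.pi * Real.cosh (2 * Real.pi * h)) * (4 * Real.pi * Real.cosh (2 * Real.pi * h)) := by
    refine (norm_sub_le _ _).trans ?_
    rw [norm_mul, norm_mul]
    gcongr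
  gcongr

lemma PP_hasDeriv (r : ℕ) {h : ℝ} (hh : 0 < h) (β α ξ : ℝ) :
    HasDerivAt (fun ξ => PP r β α (pt ξ h))
      (2 * Real.pi * Complex.I * r - ∫ x in β..α, gL' h ξ x) ξ := by
  have h1 := intervalIntegral.hasDerivAt_integral_of_dominated_loc_of_deriv_le (μ := volume)
    (a := β) (b := α) (F := fun ξ x => gL h ξ x) (F' := fun ξ x => gL' h ξ x) (x₀ := ξ)
    (s := Set.univ) (bound := fun _ => MM h) univ_mem
    (Eventually.of_forall fun ξ => (gL_cont hh ξ).aestronglyMeasurable)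
    ((gL_cont hh ξ).intervalIntegrable _ _)
    (gL'_cont hh ξ).aestronglyMeasurable
    (Eventually.of_forall fun x _ ξ _ => norm_gL'_le hh ξ x)
    intervalIntegrable_const
    (Eventually.of_forall fun x _ ξ _ => gL_deriv hh ξ x)
  have h2 := HasDerivAt.const_mul (2 * Real.pi * Complex.I * r : ℂ) (pt_deriv h ξ)
  rw [mul_one] at h2
  exact HasDerivAt.fun_sub h2 h1.2

lemma PP_cont (r : ℕ) {h : ℝ} (hh : 0 < h) (β α : ℝ) :
    Continuous (fun ξ => PP r β α (pt ξ h)) :=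
  continuous_iff_continuousAt.mpr fun ξ => (PP_hasDeriv r hh β α ξ).continuousAt

lemma ee_bdd {h : ℝ} (hh : 0 < h) : ∃ M : ℝ, 0 ≤ M ∧ ∀ u, |ee h u| ≤ M := by
  refine ⟨|Real.log (2 * (Real.cosh (2 * Real.pi * h) - 1)) / 2| +
    |Real.log (2 * (Real.cosh (2 * Real.pi * h) + 1)) / 2|, by positivity, fun u => ?_⟩
  have h1 := ee_ge hh u
  have h2 : ee h u ≤ Real.log (2 * (Real.cosh (2 * Real.pi * h) + 1)) / 2 := by
    unfold ee
    have a1 := cosh_gap hh le_rfl u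
    have a2 := cosh_gap_pos hh
    have a3 := Real.cos_le_one (2 * Real.pi * u)
    have a4 : 0 < 2 * (Real.cosh (2 * Real.pi * h) + Real.cos (2 * Real.pi * u)) := by linarith only [a2, a1]
    gcongr
  rw [abs_le]
  constructor
  · have := neg_abs_le (Real.log (2 * (Real.cosh (2 * Real.pi * h) - 1)) / 2)
    have := abs_nonneg (Real.log (2 * (Real.cosh (2 * Real.pi * h) + 1)) / 2)
    linarith
  · have := le_abs_self (Real.log (2 * (Real.cosh (2 * Real.pi * h) + 1)) / 2)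
    have := abs_nonneg (Real.log (2 * (Real.cosh (2 * Real.pi * h) - 1)) / 2)
    linarith

lemma Kf_eq (r : ℕ) {h : ℝ} (hh : 0 < h) (ξ a b : ℝ) :
    Kf r h ξ a b = 2 * Real.pi * r * ξ * h +
      (∫ x in a..b, 2 * Real.log (2 * Real.sin (Real.pi * x))) -
      ∫ x in a..b, (ee h (ξ + x) + ee h (ξ - x)) := by
  unfold Kf ff
  have hc := ee_cont hh
  have i1 : IntervalIntegrable (fun x : ℝ => 2 * Real.log (2 * Real.sin (Real.pi * x))) volume
      a b := by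
    apply IntervalIntegrable.const_mul
    have := (Kashaev.integrable_h (Real.pi * a) (Real.pi * b)).comp_mul_left (c := Real.pi)
    have e1 : Real.pi * a / Real.pi = a := by field_simp
    have e2 : Real.pi * b / Real.pi = b := by field_simp
    rw [e1, e2] at this
    simpa only [Real.log_abs] using this
  have i2 : IntervalIntegrable (fun x : ℝ => ee h (ξ + x) + ee h (ξ - x)) volume a b := by
    apply Continuous.intervalIntegrable
    fun_prop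
  have e : (fun x : ℝ => 2 * Real.log (2 * Real.sin (Real.pi * x)) - ee h (ξ + x) - ee h (ξ - x)) =
      fun x => 2 * Real.log (2 * Real.sin (Real.pi * x)) - (ee h (ξ + x) + ee h (ξ - x)) := by
    funext x; ring
  rw [e, intervalIntegral.integral_sub i1 i2]
  ring

/-- comparison of the discrete exponent with `Kf` -/
lemma ee_sum_cmp {h : ℝ} (hh : 0 < h) (β α B : ℝ) : ∃ C : ℝ, ∀ N l n : ℕ, 2 ≤ N → l + n < N →
    |(l : ℝ) - N * β| ≤ B → |((l + n + 1 : ℕ) : ℝ) - N * α| ≤ B → ∀ ξ : ℝ,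
    |(∑ k ∈ Ico l (l + n + 1), (ee h (ξ + (2 * k + 1) / (2 * N)) +
      ee h (ξ - (2 * k + 1) / (2 * N)))) -
      N * ∫ x in β..α, (ee h (ξ + x) + ee h (ξ - x))| ≤ C := by
  obtain ⟨C1, h1⟩ := riem_ee hh
  obtain ⟨M, hM0, hM⟩ := ee_bdd hh
  refine ⟨C1 + 2 * M * B + 2 * M * B, ?_⟩
  intro N l n hN hln hl hn ξ
  have hNR : (0 : ℝ) < N := by exact_mod_cast (by omega : 0 < N)
  have hc := ee_cont hh
  have hgc : Continuous fun x : ℝ => ee h (ξ + x) + ee h (ξ - x) := by fun_prop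
  have hgi : ∀ a b, IntervalIntegrable (fun x : ℝ => ee h (ξ + x) + ee h (ξ - x)) volume a b :=
    fun a b => hgc.intervalIntegrable _ _
  have a1 := h1 N l (l + n + 1) (by omega) (by omega) (by omega) h le_rfl ξ
  have gen : ∀ (a : ℝ) (j : ℕ), |(j : ℝ) - N * a| ≤ B →
      |(N : ℝ) * ∫ x in a..((j : ℝ) / N), (ee h (ξ + x) + ee h (ξ - x))| ≤ 2 * M * B := by
    intro a j hj
    rw [abs_mul, Nat.abs_cast]
    have h3 := intervalIntegral.norm_integral_le_of_norm_le_const (a := a)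
      (b := (j : ℝ) / N) (f := fun x : ℝ => ee h (ξ + x) + ee h (ξ - x)) (C := 2 * M)
      (fun x _ => by
        rw [Real.norm_eq_abs]
        refine (abs_add_le _ _).trans ?_
        have := hM (ξ + x)
        have := hM (ξ - x)
        linarith)
    rw [Real.norm_eq_abs] at h3
    have h4 : |(j : ℝ) / N - a| = |(j : ℝ) - N * a| / N := by
      rw [← abs_of_pos hNR, ← abs_div, abs_of_pos hNR]
      congr 1
      field_simp
    rw [h4] at h3
    calc (N : ℝ) * _ ≤ N * (2 * M * (|(j : ℝ) - N * a| / N)) := by gcongr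
      _ = 2 * M * |(j : ℝ) - N * a| := by field_simp
      _ ≤ 2 * M * B := by gcongr
  have b3 := gen β l hl
  have b4 := gen α (l + n + 1) hn
  have e1 := intervalIntegral.integral_add_adjacent_intervals (hgi β ((l : ℝ) / N))
      (hgi ((l : ℝ) / N) (((l + n + 1 : ℕ) : ℝ) / N))
  have e2 := intervalIntegral.integral_add_adjacent_intervals (hgi β α)
      (hgi α (((l + n + 1 : ℕ) : ℝ) / N))
  set S := ∑ k ∈ Ico l (l + n + 1), (ee h (ξ + (2 * k + 1) / (2 * N)) +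
      ee h (ξ - (2 * k + 1) / (2 * N)))
  set I1 := ∫ x in ((l : ℝ) / N)..(((l + n + 1 : ℕ) : ℝ) / N), (ee h (ξ + x) + ee h (ξ - x))
  set I2 := ∫ x in β..((l : ℝ) / N), (ee h (ξ + x) + ee h (ξ - x))
  set I3 := ∫ x in β..α, (ee h (ξ + x) + ee h (ξ - x))
  set I4 := ∫ x in α..(((l + n + 1 : ℕ) : ℝ) / N), (ee h (ξ + x) + ee h (ξ - x))
  have e3 : S - N * I3 = (S - N * I1) - N * I2 + N * I4 := by
    linear_combination (N : ℝ) * e1 - (N : ℝ) * e2
  rw [e3]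
  rw [abs_le] at a1 b3 b4 ⊢
  constructor <;> linarith only [a1.1, a1.2, b3.1, b3.2, b4.1, b4.2, b4, b3, a1]

lemma GB_dom (r : ℕ) {h : ℝ} (hh : 0 < h) (β α B : ℝ) : ∃ C : ℝ, 0 < C ∧ ∀ N l n : ℕ, 2 ≤ N →
    l + n < N → |(l : ℝ) - N * β| ≤ B → |((l + n + 1 : ℕ) : ℝ) - N * α| ≤ B → ∀ ξ ξ0 : ℝ,
    ‖GB r N l n (pt ξ h)‖ ≤ C * Real.exp (N * (Kf r h ξ β α - Kf r h ξ0 β α)) *
      ‖GB r N l n (pt ξ0 h)‖ := by
  obtain ⟨C, hC⟩ := ee_sum_cmp hh β α B
  have hs : 0 < Real.sinh (2 * Real.pi * h) := Real.sinh_pos_iff.mpr (by positivity)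
  have hcp := Real.cosh_pos (2 * Real.pi * h)
  have hpi := Real.pi_pos
  set R := (4 * Real.pi * Real.cosh (2 * Real.pi * h)) / (4 * Real.pi * Real.sinh (2 * Real.pi * h))
    with hR
  have hR0 : 0 < R := by positivity
  refine ⟨Real.exp (2 * C) * R, by positivity, ?_⟩
  intro N l n hN hln hl hn ξ ξ0
  rw [norm_GB hln hh, norm_GB hln hh, Kf_eq r hh, Kf_eq r hh]
  have a1 := abs_le.mp (hC N l n hN hln hl hn ξ)
  have a2 := abs_le.mp (hC N l n hN hln hl hn ξ0)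
  set S0 := ∑ k ∈ Ico (l + 1) (l + n + 1), 2 * Real.log (sb (k / N))
  set S := ∑ k ∈ Ico l (l + n + 1), (ee h (ξ + (2 * k + 1) / (2 * N)) +
      ee h (ξ - (2 * k + 1) / (2 * N)))
  set T := ∑ k ∈ Ico l (l + n + 1), (ee h (ξ0 + (2 * k + 1) / (2 * N)) +
      ee h (ξ0 - (2 * k + 1) / (2 * N)))
  set I := ∫ x in β..α, (ee h (ξ + x) + ee h (ξ - x))
  set J := ∫ x in β..α, (ee h (ξ0 + x) + ee h (ξ0 - x))
  set L := ∫ x in β..α, 2 * Real.log (2 * Real.sin (Real.pi * x))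
  have d1 : ‖dLy (pt ξ h)‖ ≤ R * ‖dLy (pt ξ0 h)‖ := by
    have := norm_dLy_le ξ h
    have := norm_dLy_ge ξ0 h
    calc ‖dLy (pt ξ h)‖ ≤ 4 * Real.pi * Real.cosh (2 * Real.pi * h) := by assumption
      _ = R * (4 * Real.pi * Real.sinh (2 * Real.pi * h)) := by rw [hR]; field_simp
      _ ≤ _ := by gcongr
  calc Real.exp (S0 + N * (2 * Real.pi * r * ξ * h) - S) * ‖dLy (pt ξ h)‖
      ≤ Real.exp (2 * C + N * (2 * Real.pi * r * ξ * h + L - I -
          (2 * Real.pi * r * ξ0 * h + L - J)) + (S0 + N * (2 * Real.pi * r * ξ0 * h) - T)) *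
          (R * ‖dLy (pt ξ0 h)‖) := by
        gcongr
        nlinarith only [a1.1, a1.2, a2.1, a2.2, a2, a1]
    _ = _ := by
        rw [Real.exp_add, Real.exp_add]
        ring

/-- **The Laplace lower bound** -/
theorem laplace (r : ℕ) {c h ξ0 m β α : ℝ} (hh : 0 < h) (h0 : 0 < ξ0) (h1 : ξ0 < c) (_hc : c < 1 / 2)
    (hm : 0 < m) (_hβ : 0 ≤ β) (_hβα : β < α) (_hα : α ≤ 1)
    (hP : PP r β α (pt ξ0 h) = 0)
    (hgap : ∀ ξ ∈ Set.Icc 0 c, Kf r h ξ β α ≤ Kf r h ξ0 β α - m * (ξ - ξ0) ^ 2)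
    (l n : ℕ → ℕ) (hln : ∀ N, 2 ≤ N → l N + n N < N) {B : ℝ}
    (hl : ∀ N, 2 ≤ N → |(l N : ℝ) - N * β| ≤ B)
    (hn : ∀ N, 2 ≤ N → |((l N + n N + 1 : ℕ) : ℝ) - N * α| ≤ B) :
    ∃ κ > 0, ∀ᶠ N : ℕ in atTop,
      κ / Real.sqrt N * ‖GB r N (l N) (n N) (pt ξ0 h)‖ ≤
        ‖∫ ξ in (0 : ℝ)..c, GB r N (l N) (n N) (pt ξ h)‖ := by
  obtain ⟨C, hC⟩ := GB_logder r hh β α B
  obtain ⟨C₁, hC₁0, hC₁⟩ := GB_dom r hh β α B
  refine laplace_abs (G := fun N ξ => GB r N (l N) (n N) (pt ξ h))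
    (D := fun N => DD r N (l N) (n N) h) (P := fun ξ => PP r β α (pt ξ h)) (m := m) (C := C)
    (C₁ := C₁) h0 h1 hm ?_ ?_ ?_ ?_ (PP_cont r hh β α) hP (PP_hasDeriv r hh β α ξ0) ?_
  · exact Eventually.of_forall fun N x => GB_hasDeriv r N (l N) (n N) hh x
  · filter_upwards [eventually_ge_atTop 2] with N hN
    exact GB_ne r (hln N hN) hh ξ0
  · exact Eventually.of_forall fun N => DD_cont r N (l N) (n N) hh
  · filter_upwards [eventually_ge_atTop 2] with N hN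
    intro x
    exact hC N (l N) (n N) hN (hln N hN) (hl N hN) (hn N hN) x
  · filter_upwards [eventually_ge_atTop 2] with N hN
    intro x hx
    refine (hC₁ N (l N) (n N) hN (hln N hN) (hl N hN) (hn N hN) x ξ0).trans ?_
    have hNR : (0 : ℝ) < N := by exact_mod_cast (by omega : 0 < N)
    have h2 := hgap x hx
    gcongr
    nlinarith only [h2]

end Pool.Agent.Helper9.TB
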